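import Mathlib
import Pool.Agent.IWA.Final

/-!
# MP_05b873_al / AnalyticFamilies

Let `p` be a prime, `G` a group with a resolution of `F_p` over `F_p G` which is finitely generated
and free up to degree `n + 1`, and `ρ` a faithful representation of `G` by matrices over
`ℤ_p[X]` which is trivial modulo `X`. For all but finitely many `l ∈ 2 p ℤ_p`, the `n`-th mod `p`
Betti numbers along the `p`-adic analytic chain of the specialisation `X = l` have the normalised
limit `β`, where `β` is the common limit for all Rokhlin sequences (for instance for the formal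
congruence subgroups). So generic members of a family of `p`-adic analytic chains (whose closures may
be semisimple) agree with each other and with all Rokhlin sequences.
-/

namespace Pool.Agent.Results.MP_05b873_al.AnalyticFamilies

open Pool.Agent.CIR Pool.Agent.IWA Filter Topology Polynomial

/-- the elements `g` such that all entries of `ρ(g)(l) - 1` are divisible by `p ^ k` -/
def level {p : ℕ} [Fact p.Prime] {G : Type} [Group G] {N : ℕ}
    (ρ : G →* Matrix (Fin N) (Fin N) ℤ_[p][X]) (l : ℤ_[p]) (k : ℕ) : Set G :=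
  {g | ∀ i j, (p : ℤ_[p]) ^ k ∣ (ρ g i j).eval l - (1 : Matrix (Fin N) (Fin N) ℤ_[p]) i j}

/-- the elements `g` such that all coefficients of index `< j` of the entries of `ρ(g) - 1` are
divisible by `p ^ j` -/
def formalLevel {p : ℕ} [Fact p.Prime] {G : Type} [Group G] {N : ℕ}
    (ρ : G →* Matrix (Fin N) (Fin N) ℤ_[p][X]) (j : ℕ) : Set G :=
  {g | ∀ r s, ∀ i < j,
    (p : ℤ_[p]) ^ j ∣ (ρ g r s - (1 : Matrix (Fin N) (Fin N) ℤ_[p][X]) r s).coeff i}

theorem result (p : ℕ) [Fact p.Prime] (G : Type) [Group G] (n : ℕ)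
    (hP : FPres (ZMod p) G (n + 1)) (N : ℕ) (hN : 0 < N)
    (ρ : G →* Matrix (Fin N) (Fin N) ℤ_[p][X]) (hinj : Function.Injective ρ)
    (h1 : ∀ g i j, (X : ℤ_[p][X]) ∣ ρ g i j - (1 : Matrix (Fin N) (Fin N) ℤ_[p][X]) i j) :
    ∃ β : ℕ,
      (∀ Δ : ℕ → Subgroup G, (∀ k, (Δ k).FiniteIndex) → RokSeq Δ →
        Tendsto (fun k => nbetti (ZMod p) n (Δ k)) atTop (𝓝 (β : ℝ))) ∧
      (∃ D : ℕ → Subgroup G, (∀ j, (D j : Set G) = formalLevel ρ j) ∧ (∀ j, (D j).Normal) ∧
        (∀ j, (D j).FiniteIndex) ∧ Antitone D ∧ (⨅ j, D j) = ⊥ ∧ RokSeq D) ∧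
      ∃ E : Finset ℤ_[p], ∀ l : ℤ_[p], (2 * p : ℤ_[p]) ∣ l → l ∉ E →
        ∃ Δ : ℕ → Subgroup G, (∀ k, (Δ k : Set G) = level ρ l k) ∧ (∀ k, (Δ k).Normal) ∧
          (∀ k, (Δ k).FiniteIndex) ∧ Antitone Δ ∧
          ((Function.Injective fun g => (ρ g).map (Polynomial.eval l)) → (⨅ k, Δ k) = ⊥) ∧
          Tendsto (fun k => nbetti (ZMod p) n (Δ k)) atTop (𝓝 (β : ℝ)) := by
  classical
  have hp : p.Prime := Fact.out
  -- triviality modulo the variable
  have hT : TrivMod ρ := by
    intro g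
    choose σ hσ using fun i j => h1 g i j
    refine ⟨Matrix.of fun i j => σ i j, ?_⟩
    ext1 i j
    rw [Matrix.add_apply, Matrix.smul_apply, smul_eq_mul, Matrix.of_apply, ← hσ i j]
    ring
  obtain ⟨e, he, he3, hle⟩ : ∃ e : ℕ, 1 ≤ e ∧ 3 ≤ p ^ e ∧
      ∀ l : ℤ_[p], (2 * p : ℤ_[p]) ∣ l → ∃ μ, l = (p : ℤ_[p]) ^ e * μ := by
    by_cases h2 : p = 2
    · refine ⟨2, by norm_num, by rw [h2]; norm_num, ?_⟩
      rintro l ⟨μ, hμ⟩
      refine ⟨μ, ?_⟩
      rw [hμ]
      have : (p : ℤ_[p]) = 2 := by exact_mod_cast congrArg (Nat.cast : ℕ → ℤ_[p]) h2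
      rw [this]; ring
    · refine ⟨1, le_refl _, ?_, ?_⟩
      · rw [pow_one]
        have := hp.two_le
        omega
      · rintro l ⟨μ, hμ⟩
        refine ⟨2 * μ, ?_⟩
        rw [hμ, pow_one]; ring
  obtain ⟨β, hβ, hfin⟩ := finite_exceptional_nbetti (e := e) hT hinj he3 he hN n hP
  obtain ⟨D, hD, hn, hf, hpD, hanti⟩ := exists_formal ρ hT
  have hmem : ∀ (j : ℕ) (g : G), g ∈ formalLevel ρ j ↔ g ∈ formSub ρ j := by
    intro j g
    exact Iff.rfl
  -- intersections of divisibility conditions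
  have hdiv : ∀ x : ℤ_[p], (∀ k : ℕ, (p : ℤ_[p]) ^ k ∣ x) → x = 0 := by
    intro x hx
    by_contra hne
    have h3 := hx (x.valuation + 1)
    rw [← Ideal.mem_span_singleton, PadicInt.mem_span_pow_iff_le_valuation x hne] at h3
    omega
  refine ⟨β, hβ, ⟨D, fun j => ?_, hn, hf, hanti, ?_, rokSeq_formal ρ hT hinj D hD hn hf⟩, ?_⟩
  · ext g
    rw [hmem]
    exact hD j g
  · rw [eq_bot_iff]
    intro g hg
    rw [Subgroup.mem_iInf] at hg
    rw [Subgroup.mem_bot]
    apply hinj
    rw [map_one]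
    ext1 r s
    rw [← sub_eq_zero]
    ext i
    rw [Polynomial.coeff_zero]
    apply hdiv
    intro k
    have h3 := (hD (max k (i + 1)) g).1 (hg _) r s i (by omega)
    exact (pow_dvd_pow _ (le_max_left _ _)).trans h3
  · refine ⟨hfin.toFinset.image fun μ => (p : ℤ_[p]) ^ e * μ, fun l hl hlE => ?_⟩
    obtain ⟨μ, hμ⟩ := hle l hl
    have hlim : Tendsto (fun k => nbetti (ZMod p) n (congSub ρ ((p : ℤ_[p]) ^ e * μ) k)) atTop
        (𝓝 (β : ℝ)) := by
      by_contra hcon
      apply hlE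
      rw [Finset.mem_image]
      exact ⟨μ, hfin.mem_toFinset.2 hcon, hμ.symm⟩
    have hlev : ∀ k, ((congSub ρ ((p : ℤ_[p]) ^ e * μ) k : Subgroup G) : Set G) = level ρ l k := by
      intro k
      ext g
      rw [SetLike.mem_coe]
      unfold congSub
      rw [Subgroup.mem_comap, mem_cg, spec_val]
      constructor
      · rintro ⟨a, ha⟩ i j
        refine ⟨a i j, ?_⟩
        have h4 := congrFun (congrFun ha i) j
        rw [Matrix.map_apply, Matrix.add_apply, Matrix.smul_apply, smul_eq_mul] at h4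
        rw [hμ, ← Polynomial.coe_evalRingHom, h4]
        ring
      · intro h
        choose a ha using h
        refine ⟨Matrix.of fun i j => a i j, ?_⟩
        ext1 i j
        rw [Matrix.map_apply, Matrix.add_apply, Matrix.smul_apply, smul_eq_mul, Matrix.of_apply,
          ← ha i j, hμ, Polynomial.coe_evalRingHom]
        ring
    refine ⟨fun k => congSub ρ ((p : ℤ_[p]) ^ e * μ) k, hlev, fun k => congSub_normal _ _ _,
      fun k => congSub_finiteIndex ρ hT he μ k, congSub_anti _ _, fun hi => ?_, hlim⟩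
    rw [eq_bot_iff]
    intro g hg
    rw [Subgroup.mem_iInf] at hg
    rw [Subgroup.mem_bot]
    apply hi
    ext1 i j
    have h5 : ∀ k : ℕ, (p : ℤ_[p]) ^ k ∣
        (ρ g i j).eval l - (1 : Matrix (Fin N) (Fin N) ℤ_[p]) i j := by
      intro k
      have h6 : g ∈ level ρ l k := by
        rw [← hlev k]; exact hg k
      exact h6 i j
    have h7 := sub_eq_zero.1 (hdiv _ h5)
    simp only [map_one, Matrix.map_apply, h7, Matrix.one_apply]
    split_ifs <;> simp

end Pool.Agent.Results.MP_05b873_al.AnalyticFamilies
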