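import Mathlib
import Pool.Agent.CIR.Crit2

/-!
# MP_05b873_al / ChainIndependence

Existence and chain independence of the limit of the normalised Betti numbers with coefficients in
an arbitrary field `K`:

* for all cofinal sequences of finite index subgroups in groups which are virtually residually nice
  (nice: finitely generated RFRS, or poly-`ℤ`, or LERF and locally indicable),
* for all sequences of finite index normal subgroups such that every nontrivial finitely generated
  subgroup has a suitable amenable quotient or unbounded abelianisations along the sequence,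
* for all Rokhlin sequences of finite index subgroups.
-/

namespace Pool.Agent.Results.MP_05b873_al.ChainIndependence

open Pool.Agent.CIR Filter Topology

universe u

theorem result (K Γ : Type u) [Field K] [Group Γ] (G : Subgroup Γ) (hG : G.FiniteIndex)
    (n : ℕ) (hP : FPres K G (n + 1)) :
    ∃ β : ℕ, ∀ Δ : ℕ → Subgroup Γ, (∀ k, (Δ k).FiniteIndex) → (∀ᶠ k in atTop, Δ k ≤ G) →
      ((Cofinal Δ ∧ ResNice G) ∨
       ((∀ k, (Δ k).Normal) ∧ ∀ H : Subgroup G, H.FG → H ≠ ⊥ →
          AmenQuot (fun k => (Δ k).subgroupOf G) H ∨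
          (Antitone Δ ∧ AbUnbounded (fun k => (Δ k).subgroupOf G) H)) ∨
       RokSeq (fun k => (Δ k).subgroupOf G)) →
      Tendsto (fun k => nbetti K n (Δ k)) atTop (𝓝 ((β : ℝ) / G.index)) := by
  obtain ⟨β, hβ⟩ := tendsto_nbetti_rok_virtual (K := K) n G hG hP
  refine ⟨β, fun Δ hf hle h => ?_⟩
  rcases h with ⟨hcof, hcl⟩ | ⟨hn, h⟩ | h
  · exact hβ Δ hf hle (hcl.profIndicable.rokSeq_virtual G hG Δ hf hcof).2
  · refine hβ Δ hf hle (rokSeq_of_amenQuot (fun k => (hn k).subgroupOf G) (fun k => ?_)
      (fun H h1 h2 => ?_))
    · have := hf k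
      infer_instance
    · rcases h H h1 h2 with h3 | ⟨h3, h4⟩
      · exact Or.inl h3
      · exact Or.inr ⟨fun i j hij x hx => h3 hij hx, h4⟩
  · exact hβ Δ hf hle h

end Pool.Agent.Results.MP_05b873_al.ChainIndependence
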