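import Mathlib
import Pool.Agent.LuA.Lvl

/-!
# MP_05b873_al / LargePrimes

Let `C` be a complex of finitely generated free modules over the integral group ring of a group `G`
(for instance the cellular complex of the universal covering of a finite CW complex). There are
natural numbers `β` and `p₀` such that for all primes `p ≥ p₀` the `n`-th mod `p` Betti numbers along
every `p`-adic analytic chain (given by a faithful representation of `G` by matrices over `ℤ_p`
which are congruent to `1` modulo `p`) and along every Rokhlin chain have the normalised limit `β`.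
-/

namespace Pool.Agent.Results.MP_05b873_al.LargePrimes

open Pool.Agent.CIR Pool.Agent.IWA Pool.Agent.LuA Filter Topology Module

/-- the operator of a matrix over the integral group ring on the vector space of functions
`K[G ⧸ D] ^ n`; a group element `g` acts by `f ↦ (x ↦ f (g⁻¹ x))` -/
noncomputable def op (K : Type) [Field K] {G : Type} [Group G] (D : Subgroup G) {m n : ℕ}
    (A : Matrix (Fin m) (Fin n) (MonoidAlgebra ℤ G)) :
    (Fin n → (G ⧸ D) → K) →ₗ[K] (Fin m → (G ⧸ D) → K) where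
  toFun f i x := ∑ j, (A i j).coeff.sum fun g c => (c : K) * f j (g⁻¹ • x)
  map_add' f f' := by
    funext i x
    simp only [Pi.add_apply, Finsupp.sum, mul_add, Finset.sum_add_distrib]
  map_smul' r f := by
    funext i x
    simp only [Pi.smul_apply, Finsupp.sum, smul_eq_mul, RingHom.id_apply, Finset.mul_sum]
    refine Finset.sum_congr rfl fun j _ => Finset.sum_congr rfl fun g _ => ?_
    ring

theorem op_eq (K : Type) [Field K] {G : Type} [Group G] (D : Subgroup G) {m n : ℕ}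
    (A : Matrix (Fin m) (Fin n) (MonoidAlgebra ℤ G)) : op K D A = opL K D A := by
  apply LinearMap.ext; intro f
  funext i x
  unfold opL
  rw [bl_apply]
  change ∑ j, ((A i j).coeff.sum fun g c => (c : K) * f j (g⁻¹ • x)) = _
  rw [Finset.sum_apply]
  refine Finset.sum_congr rfl fun j _ => ?_
  rw [Matrix.map_apply]
  unfold redM
  rw [Matrix.map_apply]
  generalize A i j = a
  induction a using MonoidAlgebra.induction_linear with
  | zero => simp
  | add u v hu hv =>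
    rw [map_add, map_add, LinearMap.add_apply, Pi.add_apply, ← hu, ← hv]
    rw [MonoidAlgebra.coeff_add]
    rw [Finsupp.sum_add_index']
    · intro g; simp
    · intro g c c'; push_cast; ring
  | single g c =>
    rw [MonoidAlgebra.mapRingHom_single, permAlg_single, LinearMap.smul_apply, Pi.smul_apply,
      perm_apply, smul_eq_mul]
    rw [MonoidAlgebra.coeff_single, Finsupp.sum_single_index]
    · rfl
    · simp

/-- the kernel of the operator of `d₁` -/
noncomputable def cyc (K : Type) [Field K] {G : Type} [Group G] {a b : ℕ}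
    (d₁ : Matrix (Fin a) (Fin b) (MonoidAlgebra ℤ G)) (D : Subgroup G) :
    Submodule K (Fin b → (G ⧸ D) → K) :=
  LinearMap.ker (op K D d₁)

/-- the image of the operator of `d₂` -/
noncomputable def bdy (K : Type) [Field K] {G : Type} [Group G] {b c : ℕ}
    (d₂ : Matrix (Fin b) (Fin c) (MonoidAlgebra ℤ G)) (D : Subgroup G) :
    Submodule K (Fin b → (G ⧸ D) → K) :=
  LinearMap.range (op K D d₂)

/-- the dimension of the homology of the complex
`K[G ⧸ D] ^ c → K[G ⧸ D] ^ b → K[G ⧸ D] ^ a` at the middle term, divided by the index of `D` -/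
noncomputable def hdim (K : Type) [Field K] {G : Type} [Group G] {a b c : ℕ}
    (d₁ : Matrix (Fin a) (Fin b) (MonoidAlgebra ℤ G))
    (d₂ : Matrix (Fin b) (Fin c) (MonoidAlgebra ℤ G)) (D : Subgroup G) : ℝ :=
  (finrank K (cyc K d₁ D ⧸ (bdy K d₂ D).submoduleOf (cyc K d₁ D)) : ℝ) / D.index

/-- the normalised dimensions of the homology along `Δ` converge to the number `β` -/
def HasLim (K : Type) [Field K] {G : Type} [Group G] {a b c : ℕ}
    (d₁ : Matrix (Fin a) (Fin b) (MonoidAlgebra ℤ G))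
    (d₂ : Matrix (Fin b) (Fin c) (MonoidAlgebra ℤ G)) (Δ : ℕ → Subgroup G) (β : ℕ) : Prop :=
  Tendsto (fun k => hdim K d₁ d₂ (Δ k)) atTop (𝓝 (β : ℝ))

/-- a sequence of normal subgroups of finite index such that every element `≠ 1` lies outside
`Δ k` for all large `k` -/
def NormalSeq {G : Type} [Group G] (Δ : ℕ → Subgroup G) : Prop :=
  (∀ k, (Δ k).Normal) ∧ (∀ k, (Δ k).FiniteIndex) ∧ Avoids Δ

/-- `D k` consists of the elements `g` such that all entries of `ρ g - 1` are divisible by `p ^ k` -/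
def IsLevel {p : ℕ} [Fact p.Prime] {G : Type} [Group G] {N : ℕ}
    (ρ : G →* Matrix (Fin N) (Fin N) ℤ_[p]) (D : ℕ → Subgroup G) : Prop :=
  ∀ k g, g ∈ D k ↔ ∀ i j, (p : ℤ_[p]) ^ k ∣ ρ g i j - (1 : Matrix (Fin N) (Fin N) ℤ_[p]) i j

/-- a faithful representation by matrices congruent to `1` modulo `p` -/
def IsEmb (p : ℕ) [Fact p.Prime] {G : Type} [Group G] {N : ℕ}
    (ρ : G →* Matrix (Fin N) (Fin N) ℤ_[p]) : Prop :=
  Function.Injective ρ ∧
    ∀ g i j, (p : ℤ_[p]) ∣ ρ g i j - (1 : Matrix (Fin N) (Fin N) ℤ_[p]) i j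

/-- the claim for the prime `p` and the limit `β` -/
def PrimeClaim (p : ℕ) [Fact p.Prime] {G : Type} [Group G] {a b c : ℕ}
    (d₁ : Matrix (Fin a) (Fin b) (MonoidAlgebra ℤ G))
    (d₂ : Matrix (Fin b) (Fin c) (MonoidAlgebra ℤ G)) (β : ℕ) : Prop :=
  (∀ (N : ℕ), 0 < N → ∀ ρ : G →* Matrix (Fin N) (Fin N) ℤ_[p], IsEmb p ρ →
    ∃ D : ℕ → Subgroup G, IsLevel ρ D ∧ NormalSeq D ∧ Antitone D ∧
      HasLim (ZMod p) d₁ d₂ D β) ∧
  (∀ Δ : ℕ → Subgroup G, NormalSeq Δ → RokSeq Δ → HasLim (ZMod p) d₁ d₂ Δ β)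

/-- `G` has faithful representations by matrices over `ℤ_p` congruent to `1` modulo `p`,
for infinitely many primes `p` -/
def ManyEmb (G : Type) [Group G] : Prop :=
  ∀ q : ℕ, ∃ (p : ℕ) (_ : Fact p.Prime) (N : ℕ) (ρ : G →* Matrix (Fin N) (Fin N) ℤ_[p]),
    q ≤ p ∧ 0 < N ∧ IsEmb p ρ

/-- the limits of the ranks for one matrix -/
theorem one_matrix {G : Type} [Group G] {m n : ℕ}
    (A : Matrix (Fin m) (Fin n) (MonoidAlgebra ℤ G)) :
    ∃ r p₀ : ℕ,
      (∀ (p : ℕ) [Fact p.Prime], p₀ ≤ p → 3 ≤ p ∧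
        (∀ (N : ℕ), 0 < N → ∀ ρ : G →* (Matrix (Fin N) (Fin N) ℤ_[p])ˣ, Function.Injective ρ →
          (∀ g, ρ g ∈ cg ℤ_[p] N p 1) →
          Tendsto (fun k => nrk (redM (ZMod p) A) ((cg ℤ_[p] N p k).comap ρ)) atTop
            (𝓝 (r : ℝ))) ∧
        (∀ Δ : ℕ → Subgroup G, (∀ k, (Δ k).Normal) → (∀ k, (Δ k).FiniteIndex) → Avoids Δ →
          RokSeq Δ → Tendsto (fun k => nrk (redM (ZMod p) A) (Δ k)) atTop (𝓝 (r : ℝ)))) ∧
      ((∀ p₁ : ℕ, ∃ (p : ℕ) (_ : Fact p.Prime) (N : ℕ)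
          (ρ : G →* (Matrix (Fin N) (Fin N) ℤ_[p])ˣ),
          p₁ ≤ p ∧ 0 < N ∧ Function.Injective ρ ∧ ∀ g, ρ g ∈ cg ℤ_[p] N p 1) →
        ∀ Δ : ℕ → Subgroup G, (∀ k, (Δ k).Normal) → (∀ k, (Δ k).FiniteIndex) → Avoids Δ →
          Tendsto (fun k => nrk (redM ℚ A) (Δ k)) atTop (𝓝 (r : ℝ))) := by
  obtain ⟨r, p₀, h⟩ := exists_large A
  obtain ⟨L, hL⟩ := exists_luck A
  obtain ⟨C, hC⟩ := exists_nrk_sub_le A
  refine ⟨r, max p₀ 3, fun p _ hp => ⟨(le_max_right _ _).trans hp,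
    (h p ((le_max_left _ _).trans hp)).1, (h p ((le_max_left _ _).trans hp)).2⟩, ?_⟩
  intro hex Δ hn hf hav
  have hLr : L = r := by
    have key : ∀ ε : ℝ, 0 < ε → |L - r| ≤ ε := by
      intro ε hε
      obtain ⟨p, hpf, N, ρ, hp, hN, hi, h1⟩ :=
        hex (max (max p₀ 3) (⌈Real.exp (|C| / ε)⌉₊ + 1))
      have hpr : p.Prime := Fact.out
      have hp3 : 3 ≤ p := ((le_max_right _ _).trans (le_max_left _ _)).trans hp
      have hp0 : p₀ ≤ p := ((le_max_left _ _).trans (le_max_left _ _)).trans hp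
      have hlp : 0 < Real.log p := Real.log_pos (by exact_mod_cast hpr.one_lt)
      have e1 := (h p hp0).1 N hN ρ hi h1
      have e2 := hL (fun k => (cg ℤ_[p] N p k).comap ρ) (lvl_normal ρ)
        (lvl_finiteIndex hp3 hN ρ h1) (lvl_avoids ρ hi)
      have e3 : (r : ℝ) ≤ L := le_of_tendsto_of_tendsto' e1 e2 fun k =>
        (hC p _ (lvl_finiteIndex hp3 hN ρ h1 k)).1
      have e4 : L - C / Real.log p ≤ r :=
        le_of_tendsto_of_tendsto' (e2.sub_const _) e1 fun k =>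
          (hC p _ (lvl_finiteIndex hp3 hN ρ h1 k)).2
      have e5 : |C| / ε < Real.log p := by
        rw [Real.lt_log_iff_exp_lt (by exact_mod_cast hpr.pos)]
        have e6 : Real.exp (|C| / ε) ≤ ⌈Real.exp (|C| / ε)⌉₊ := Nat.le_ceil _
        have e7 : ((⌈Real.exp (|C| / ε)⌉₊ + 1 : ℕ) : ℝ) ≤ p := by
          exact_mod_cast (le_max_right _ _).trans hp
        push_cast at e7
        linarith
      have e6 : |C| / Real.log p ≤ ε := by
        rw [div_le_iff₀ hlp]
        rw [div_lt_iff₀ hε] at e5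
        linarith [mul_comm ε (Real.log p)]
      have e7 : C / Real.log p ≤ |C| / Real.log p :=
        div_le_div_of_nonneg_right (le_abs_self C) hlp.le
      rw [abs_le]
      constructor <;> linarith
    have h0 : |L - r| ≤ 0 := le_of_forall_pos_le_add fun ε hε => by
      have := key ε hε; linarith
    have h1 : |L - r| = 0 := le_antisymm h0 (abs_nonneg _)
    linarith [abs_eq_zero.1 h1]
  rw [← hLr]
  exact hL Δ hn hf hav

theorem result {G : Type} [Group G] {a b c : ℕ}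
    (d₁ : Matrix (Fin a) (Fin b) (MonoidAlgebra ℤ G))
    (d₂ : Matrix (Fin b) (Fin c) (MonoidAlgebra ℤ G)) (hd : d₁ * d₂ = 0) :
    ∃ β p₀ : ℕ,
      (∀ (p : ℕ) [Fact p.Prime], p₀ ≤ p → PrimeClaim p d₁ d₂ β) ∧
      (ManyEmb G → ∀ Δ : ℕ → Subgroup G, NormalSeq Δ → HasLim ℚ d₁ d₂ Δ β) := by
  obtain ⟨r₁, p₁, h₁, h₁'⟩ := one_matrix d₁
  obtain ⟨r₂, p₂, h₂, h₂'⟩ := one_matrix d₂
  have hhd : ∀ (K : Type) [Field K] (D : Subgroup G) [D.FiniteIndex],
      hdim K d₁ d₂ D = b - nrk (redM K d₁) D - nrk (redM K d₂) D := fun K _ D _ =>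
    by
      unfold hdim cyc bdy
      rw [op_eq, op_eq]
      exact hdim_eq K D d₁ d₂ hd
  have hnn : ∀ (K : Type) [Field K] (D : Subgroup G), 0 ≤ hdim K d₁ d₂ D := fun K _ D => by
    unfold hdim; positivity
  -- passing from ranks to homology
  have key : ∀ (K : Type) [Field K] (D : ℕ → Subgroup G), (∀ k, (D k).FiniteIndex) →
      Tendsto (fun k => nrk (redM K d₁) (D k)) atTop (𝓝 (r₁ : ℝ)) →
      Tendsto (fun k => nrk (redM K d₂) (D k)) atTop (𝓝 (r₂ : ℝ)) →
      Tendsto (fun k => hdim K d₁ d₂ (D k)) atTop (𝓝 ((b - (r₁ + r₂) : ℕ) : ℝ)) := by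
    intro K _ D hf e1 e2
    have e3 : Tendsto (fun k => hdim K d₁ d₂ (D k)) atTop (𝓝 ((b : ℝ) - r₁ - r₂)) := by
      refine ((tendsto_const_nhds.sub e1).sub e2).congr fun k => ?_
      have := hf k
      exact (hhd K (D k)).symm
    have e4 : (0 : ℝ) ≤ (b : ℝ) - r₁ - r₂ := ge_of_tendsto' e3 fun k => hnn K (D k)
    have e5 : ((b - (r₁ + r₂) : ℕ) : ℝ) = (b : ℝ) - r₁ - r₂ := by
      have e6 : r₁ + r₂ ≤ b := by
        have : (r₁ : ℝ) + r₂ ≤ b := by linarith
        exact_mod_cast this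
      rw [Nat.cast_sub e6]; push_cast; ring
    rw [e5]
    exact e3
  -- from representations to unit groups
  have hconv : ∀ (p : ℕ) [Fact p.Prime] (N : ℕ) (ρ : G →* Matrix (Fin N) (Fin N) ℤ_[p]),
      IsEmb p ρ → Function.Injective ρ.toHomUnits ∧ (∀ g, ρ.toHomUnits g ∈ cg ℤ_[p] N p 1) ∧
        IsLevel ρ (fun k => (cg ℤ_[p] N p k).comap ρ.toHomUnits) := by
    intro p _ N ρ hρ
    have hlev : IsLevel ρ (fun k => (cg ℤ_[p] N p k).comap ρ.toHomUnits) := by
      intro k g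
      rw [Subgroup.mem_comap, mem_cg]
      constructor
      · rintro ⟨x, hx⟩ i j
        refine ⟨x i j, ?_⟩
        have h4 := congrFun (congrFun hx i) j
        rw [Matrix.add_apply, Matrix.smul_apply, smul_eq_mul] at h4
        have h5 : ρ g i j = (1 : Matrix (Fin N) (Fin N) ℤ_[p]) i j + (p : ℤ_[p]) ^ k * x i j := h4
        rw [h5]; ring
      · intro h
        choose x hx using h
        refine ⟨Matrix.of fun i j => x i j, ?_⟩
        ext1 i j
        rw [Matrix.add_apply, Matrix.smul_apply, smul_eq_mul, Matrix.of_apply, ← hx i j]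
        change ρ g i j = _
        ring
    refine ⟨fun x y hxy => hρ.1 ?_, fun g => ?_, hlev⟩
    · exact congrArg Units.val hxy
    · have := (hlev 1 g).2 (fun i j => by rw [pow_one]; exact hρ.2 g i j)
      exact this
  refine ⟨b - (r₁ + r₂), max p₁ p₂, fun p _ hp => ⟨?_, ?_⟩, ?_⟩
  · intro N hN ρ hρ
    obtain ⟨hi, hc, hlev⟩ := hconv p N ρ hρ
    have g₁ := h₁ p ((le_max_left _ _).trans hp)
    have g₂ := h₂ p ((le_max_right _ _).trans hp)
    refine ⟨_, hlev, ⟨lvl_normal _, lvl_finiteIndex g₁.1 hN _ hc, lvl_avoids _ hi⟩, lvl_anti _, ?_⟩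
    exact key (ZMod p) _ (lvl_finiteIndex g₁.1 hN _ hc) (g₁.2.1 N hN _ hi hc)
      (g₂.2.1 N hN _ hi hc)
  · rintro Δ ⟨hn, hf, hav⟩ hR
    exact key (ZMod p) Δ hf ((h₁ p ((le_max_left _ _).trans hp)).2.2 Δ hn hf hav hR)
      ((h₂ p ((le_max_right _ _).trans hp)).2.2 Δ hn hf hav hR)
  · rintro hex Δ ⟨hn, hf, hav⟩
    have hex' : ∀ p₁ : ℕ, ∃ (p : ℕ) (_ : Fact p.Prime) (N : ℕ)
        (ρ : G →* (Matrix (Fin N) (Fin N) ℤ_[p])ˣ),
        p₁ ≤ p ∧ 0 < N ∧ Function.Injective ρ ∧ ∀ g, ρ g ∈ cg ℤ_[p] N p 1 := by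
      intro q
      obtain ⟨p, hpf, N, ρ, hq, hN, hρ⟩ := hex q
      obtain ⟨hi, hc, -⟩ := hconv p N ρ hρ
      exact ⟨p, hpf, N, ρ.toHomUnits, hq, hN, hi, hc⟩
    exact key ℚ Δ hf (h₁' hex' Δ hn hf hav) (h₂' hex' Δ hn hf hav)

end Pool.Agent.Results.MP_05b873_al.LargePrimes
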